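import Pool.Agent.Helper87.P3.Spec

set_option autoImplicit false

namespace Pool.Agent.Helper35.P3

open Finset Pool.Agent.Helper87.P3

variable {M ι : Type} [DecidableEq M] {I : Inst M ι} {u : ι → ℕ}

lemma cheap_mono {A B : Finset M} (h : A ⊆ B) (hB : cheap I u B) : cheap I u A :=
  fun k => (I.mono k A B h).trans (hB k)

lemma cheap_empty : cheap I u ∅ := fun k => by rw [I.v0]; exact Nat.zero_le _

lemma emin_le {A : Finset M} (h : emin I u A) (k : ι) : I.v k A ≤ u k + 1 := by
  rcases A.eq_empty_or_nonempty with rfl | ⟨g, hg⟩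
  · rw [I.v0]; exact Nat.zero_le _
  · have h1 := I.unit k (A.erase g) g
    rw [Finset.insert_erase hg] at h1
    have h2 := h g hg k
    omega

lemma exists_emin {A : Finset M} (h : ¬ cheap I u A) :
    ∃ Z ⊆ A, emin I u Z ∧ ¬ cheap I u Z := by
  induction A using Finset.strongInduction with
  | H A ih =>
    by_cases hm : emin I u A
    · exact ⟨A, Finset.Subset.refl _, hm, h⟩
    · simp only [emin, not_forall] at hm
      obtain ⟨g, hg, hc⟩ := hm
      obtain ⟨Z, hZ, hZ'⟩ := ih (A.erase g) (Finset.erase_ssubset hg) hc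
      exact ⟨Z, hZ.trans (Finset.erase_subset _ _), hZ'⟩

lemma exists_win {A : Finset M} (h : ¬ cheap I u A) (hm : emin I u A) : ∃ k, win I u k A := by
  simp only [cheap, not_forall, not_le] at h
  obtain ⟨k, hk⟩ := h
  exact ⟨k, hm, le_antisymm (emin_le hm k) hk⟩

lemma exists_win_sub {A : Finset M} (h : ¬ cheap I u A) :
    ∃ Z ⊆ A, ∃ k, win I u k Z := by
  obtain ⟨Z, hZ, hm, hc⟩ := exists_emin h
  obtain ⟨k, hk⟩ := exists_win hc hm
  exact ⟨Z, hZ, k, hk⟩

lemma win_not_cheap {A : Finset M} {k : ι} (h : win I u k A) : ¬ cheap I u A := by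
  intro hc
  have := hc k
  have := h.2
  omega

lemma le_of_not_win {A : Finset M} {k : ι} (hm : emin I u A) (h : ¬ win I u k A) :
    I.v k A ≤ u k := by
  by_contra hlt
  exact h ⟨hm, le_antisymm (emin_le hm k) (by omega)⟩

lemma win_erase {U : Finset M} {g : M} {k : ι} (h : win I u k U) (hg : g ∈ U) :
    dem I u k (U.erase g) := by
  refine ⟨h.1 g hg, le_antisymm (h.1 g hg k) ?_⟩
  have h1 := I.unit k (U.erase g) g
  rw [Finset.insert_erase hg, h.2] at h1
  omega

lemma dem_up {A B : Finset M} {k : ι} (hA : I.v k A = u k) (hAB : A ⊆ B) (hB : cheap I u B) :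
    dem I u k B :=
  ⟨hB, le_antisymm (hB k) (hA ▸ I.mono k A B hAB)⟩

lemma mem_of_win {V Z : Finset M} {g : M} {w : ι} (hV : cheap I u V) (hZ : Z ⊆ insert g V)
    (hw : win I u w Z) : g ∈ Z := by
  by_contra hg
  apply win_not_cheap hw
  apply cheap_mono _ hV
  intro y hy
  have h := hZ hy
  rw [Finset.mem_insert] at h
  rcases h with rfl | h
  · exact absurd hy hg
  · exact h

lemma dem_of_win {V Z : Finset M} {g : M} {w : ι} (hV : cheap I u V) (hZ : Z ⊆ insert g V)
    (hw : win I u w Z) : dem I u w V := by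
  have hg := mem_of_win hV hZ hw
  have h := win_erase hw hg
  refine dem_up h.2 ?_ hV
  intro y hy
  rw [Finset.mem_erase] at hy
  have h := hZ hy.2
  rw [Finset.mem_insert] at h
  exact h.resolve_left hy.1

lemma tri12 {a b c : ι} (h : Tri a b c) : Tri b a c := by
  obtain ⟨h1, h2, h3, h4⟩ := h
  exact ⟨h1.symm, h3, h2, fun k => by rcases h4 k with h | h | h <;> simp [h]⟩

lemma tri23 {a b c : ι} (h : Tri a b c) : Tri a c b := by
  obtain ⟨h1, h2, h3, h4⟩ := h
  exact ⟨h3, h2.symm, h1, fun k => by rcases h4 k with h | h | h <;> simp [h]⟩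

lemma tri13 {a b c : ι} (h : Tri a b c) : Tri c b a := tri12 (tri23 (tri12 h))

omit [DecidableEq M] in
lemma dis12 {A B C : Finset M} (h : Dis3 A B C) : Dis3 B A C := ⟨h.1.symm, h.2.2, h.2.1⟩

omit [DecidableEq M] in
lemma dis23 {A B C : Finset M} (h : Dis3 A B C) : Dis3 A C B := ⟨h.2.2, h.2.1.symm, h.1⟩

omit [DecidableEq M] in
lemma dis_mono {A B C A' B' C' : Finset M} (h : Dis3 A B C) (hA : A' ⊆ A) (hB : B' ⊆ B)
    (hC : C' ⊆ C) : Dis3 A' B' C' :=
  ⟨Finset.disjoint_of_subset_left hA (Finset.disjoint_of_subset_right hB h.1),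
   Finset.disjoint_of_subset_left hB (Finset.disjoint_of_subset_right hC h.2.1),
   Finset.disjoint_of_subset_left hA (Finset.disjoint_of_subset_right hC h.2.2)⟩

/-- (F1) -/
lemma F1 {a b c : ι} {A B C : Finset M} (hM : Tmax I u) (hT : Tri a b c) (hD : Dis3 A B C)
    (ha : win I u a A) (hb : acc I u b B) (hc : acc I u c C) : win I u b A ∨ win I u c A := by
  classical
  by_contra hcon
  push Not at hcon
  obtain ⟨hnb, hnc⟩ := hcon
  have hle : ∀ k, u k ≤ Function.update u a (u a + 1) k := by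
    intro k
    by_cases hk : k = a
    · subst hk; simp
    · simp [Function.update_of_ne hk]
  have hup : ∀ {i : ι} {A : Finset M}, i ≠ a → acc I u i A →
      acc I (Function.update u a (u a + 1)) i A := by
    intro i A hi h
    rcases h with h | h
    · exact Or.inl ⟨fun k => (h.1 k).trans (hle k), by rw [Function.update_of_ne hi]; exact h.2⟩
    · exact Or.inr ⟨fun g hg k => (h.1 g hg k).trans (hle k), by
        rw [Function.update_of_ne hi]; exact h.2⟩
  have hA : acc I (Function.update u a (u a + 1)) a A := by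
    left
    refine ⟨fun k => ?_, by rw [Function.update_self]; exact ha.2⟩
    rcases hT.2.2.2 k with rfl | rfl | rfl
    · rw [Function.update_self]; exact ha.2.le
    · exact (le_of_not_win ha.1 hnb).trans (hle _)
    · exact (le_of_not_win ha.1 hnc).trans (hle _)
  have h1 := hM _ a b c A B C hT ⟨hD, hA, hup hT.1.symm hb, hup hT.2.2.1.symm hc⟩
  rw [Function.update_self, Function.update_of_ne hT.1.symm,
    Function.update_of_ne hT.2.2.1.symm] at h1
  omega

/-- a complete allocation with all bundles demanded is good -/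
lemma good_of_dem [Fintype M] {a b c : ι} {A B C : Finset M} (hT : Tri a b c) (hD : Dis3 A B C)
    (hU : A ∪ B ∪ C = univ) (ha : dem I u a A) (hb : dem I u b B) (hc : dem I u c C) :
    Good I := by
  obtain ⟨d1, d2, d3⟩ := hD
  have key : ∀ (i : ι) (A B P P' : Finset M), Disjoint A B → cheap I u A → cheap I u B →
      Disjoint P P' → P ∪ P' = A ∪ B → min (I.v i P) (I.v i P') ≤ u i := by
    intro i A B P P' h1 h2 h3 h4 h5
    exact (I.feas i P P' A B h4 h1 h5).trans (max_le (h2 i) (h3 i))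
  refine ⟨a, b, c, A, B, C, hT, ⟨d1, d2, d3⟩, hU, ?_, ?_, ?_, ?_, ?_, ?_⟩
  · intro P P' h h'; rw [ha.2]; exact key a A B P P' d1 ha.1 hb.1 h h'
  · intro P P' h h'; rw [ha.2]; exact key a A C P P' d3 ha.1 hc.1 h h'
  · intro P P' h h'; rw [hb.2]; exact key b A B P P' d1 ha.1 hb.1 h h'
  · intro P P' h h'; rw [hb.2]; exact key b B C P P' d2 hb.1 hc.1 h h'
  · intro P P' h h'; rw [hc.2]; exact key c A C P P' d3 ha.1 hc.1 h h'
  · intro P P' h h'; rw [hc.2]; exact key c B C P P' d2 hb.1 hc.1 h h'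

end Pool.Agent.Helper35.P3
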