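import Pool.Agent.Helper35.P3.Bas

set_option autoImplicit false

namespace Pool.Agent.Helper35.P3

open Finset Pool.Agent.Helper87.P3

variable {M ι : Type} [DecidableEq M] {I : Inst M ι} {u : ι → ℕ}

/-- closure step of the main lemma -/
lemma ml_close [Fintype M] {x a b : ι} (hT : Tri x a b) (hM : Tmax I u) (hN : NoTwo I u)
    (hG : ¬ Good I) {S V W : Finset M} (hSW : S ∪ W = univ) (hdSW : Disjoint S W)
    (hsplit : ∀ A B : Finset M, Disjoint A B → A ∪ B = S →
      u x + 1 ≤ I.v x A ∨ u x + 1 ≤ I.v x B)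
    (hVS : V ⊆ S) (hVc : cheap I u V) (hVx : I.v x V = u x)
    (hUa : win I u a (S \ V)) (haW : dem I u a W) (hbW : dem I u b W)
    {g' : M} (hg' : g' ∈ S \ V) {U' : Finset M} (hU' : U' ⊆ insert g' V)
    (hU'c : ¬ cheap I u U') (hU'm : emin I u U') :
    cheap I u (S \ U') ∧ I.v x (S \ U') = u x ∧ (win I u a U' ∨ win I u b U') := by
  classical
  -- membership facts
  have mVS : ∀ y ∈ V, y ∈ S := fun y hy => hVS hy
  have mSW : ∀ y ∈ S, y ∉ W := fun y hy => Finset.disjoint_left.1 hdSW hy
  have mAll : ∀ y, y ∈ S ∨ y ∈ W := fun y => by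
    have : y ∈ S ∪ W := hSW ▸ Finset.mem_univ y
    simpa using this
  have mg' : g' ∈ S ∧ g' ∉ V := by simpa using hg'
  have mU' : ∀ y ∈ U', y = g' ∨ y ∈ V := fun y hy => by simpa using hU' hy
  have mU'S : ∀ y ∈ U', y ∈ S := fun y hy => by
    rcases mU' y hy with rfl | h
    · exact mg'.1
    · exact mVS y h
  have hU'S : U' ⊆ S := mU'S
  -- `x` wins `U`
  have hxU : win I u x (S \ V) := by
    refine ⟨hUa.1, le_antisymm (emin_le hUa.1 x) ?_⟩
    rcases hsplit V (S \ V) Finset.disjoint_sdiff (Finset.union_sdiff_of_subset hVS) with h | h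
    · rw [hVx] at h; omega
    · exact h
  have hxV : dem I u x V := ⟨hVc, hVx⟩
  have hxV0 : dem I u x ((S \ V).erase g') := win_erase hxU hg'
  have haV0 : dem I u a ((S \ V).erase g') := win_erase hUa hg'
  have hV0V' : (S \ V).erase g' ⊆ S \ U' := by
    intro y hy
    simp only [Finset.mem_erase, Finset.mem_sdiff] at hy ⊢
    refine ⟨hy.2.1, fun h => ?_⟩
    rcases mU' y h with h | h
    · exact hy.1 h
    · exact hy.2.2 h
  have hdem : ∀ {w : ι}, win I u w U' → dem I u w V := fun hw => dem_of_win hVc hU' hw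
  -- basic disjointness
  have dis1 : Dis3 U' (S \ U') W := by
    refine ⟨Finset.disjoint_sdiff, ?_, ?_⟩
    · exact Finset.disjoint_of_subset_left Finset.sdiff_subset hdSW
    · exact Finset.disjoint_of_subset_left hU'S hdSW
  have dis2 : Dis3 U' ((S \ V).erase g') W :=
    dis_mono dis1 (Finset.Subset.refl _) hV0V' (Finset.Subset.refl _)
  -- at least two winners of `U'`
  have two : ∀ w, win I u w U' → ∃ w', w' ≠ w ∧ win I u w' U' := by
    intro w hw
    rcases hT.2.2.2 w with rfl | rfl | rfl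
    · rcases F1 hM hT dis2 hw (Or.inl haV0) (Or.inl hbW) with h | h
      · exact ⟨a, hT.1.symm, h⟩
      · exact ⟨b, hT.2.2.1.symm, h⟩
    · rcases F1 hM (tri12 hT) dis2 hw (Or.inl hxV0) (Or.inl hbW) with h | h
      · exact ⟨x, hT.1, h⟩
      · exact ⟨b, hT.2.1.symm, h⟩
    · rcases F1 hM (tri12 (tri23 hT)) dis2 hw (Or.inl hxV0) (Or.inl haW) with h | h
      · exact ⟨x, hT.2.2.1, h⟩
      · exact ⟨a, hT.2.1, h⟩
  obtain ⟨w0, hw0⟩ := exists_win hU'c hU'm
  by_cases hV'c : cheap I u (S \ U')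
  · -- case (2)
    have hxU' : win I u x U' := by
      refine ⟨hU'm, le_antisymm (emin_le hU'm x) ?_⟩
      rcases hsplit (S \ U') U' Finset.sdiff_disjoint
        (Finset.sdiff_union_of_subset hU'S) with h | h
      · have := hV'c x; omega
      · exact h
    refine ⟨hV'c, (dem_up hxV0.2 hV0V' hV'c).2, ?_⟩
    exact F1 hM hT dis1 hxU' (Or.inl (dem_up haV0.2 hV0V' hV'c)) (Or.inl hbW)
  exfalso
  -- case (1)
  -- `x` does not win `U'`
  have hother : ∀ {z : ι}, z ≠ x → ∃ o, Tri x z o ∧ dem I u o W ∧ dem I u z W := by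
    intro z hz
    rcases hT.2.2.2 z with rfl | rfl | rfl
    · exact absurd rfl hz
    · exact ⟨b, hT, hbW, haW⟩
    · exact ⟨a, tri23 hT, haW, hbW⟩
  have hxU' : ¬ win I u x U' := by
    intro hx
    obtain ⟨Z, hZ, z, hz⟩ := exists_win_sub hV'c
    by_cases hzx : z = x
    · subst hzx
      obtain ⟨w', hw'ne, hw'⟩ := two z hx
      obtain ⟨o, hTo, hoW, -⟩ := hother hw'ne
      exact hN w' z o U' Z W (tri12 hTo)
        (dis_mono dis1 (Finset.Subset.refl _) hZ (Finset.Subset.refl _)) hw' hz (Or.inl hoW)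
    · obtain ⟨o, hTo, hoW, -⟩ := hother hzx
      exact hN x z o U' Z W hTo
        (dis_mono dis1 (Finset.Subset.refl _) hZ (Finset.Subset.refl _)) hx hz (Or.inl hoW)
  have hab : win I u a U' ∧ win I u b U' := by
    obtain ⟨w', hw'ne, hw'⟩ := two w0 hw0
    rcases hT.2.2.2 w0 with rfl | rfl | rfl
    · exact absurd hw0 hxU'
    · rcases hT.2.2.2 w' with rfl | rfl | rfl
      · exact absurd hw' hxU'
      · exact absurd rfl hw'ne
      · exact ⟨hw0, hw'⟩
    · rcases hT.2.2.2 w' with rfl | rfl | rfl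
      · exact absurd hw' hxU'
      · exact ⟨hw', hw0⟩
      · exact absurd rfl hw'ne
  obtain ⟨haU', hbU'⟩ := hab
  -- symmetric form: any `z ≠ x` wins `U'`
  have hzU' : ∀ {z : ι}, z ≠ x → win I u z U' := by
    intro z hz
    rcases hT.2.2.2 z with rfl | rfl | rfl
    · exact absurd rfl hz
    · exact haU'
    · exact hbU'
  have hnx : ∀ Z ⊆ S \ U', ¬ win I u x Z := by
    intro Z hZ hx
    exact hN x a b Z U' W hT
      (dis12 (dis_mono dis1 (Finset.Subset.refl _) hZ (Finset.Subset.refl _))) hx haU'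
      (Or.inl hbW)
  have hxW : ¬ dem I u x W := by
    intro hx
    obtain ⟨Z, hZ, z, hz⟩ := exists_win_sub hV'c
    have hzx : z ≠ x := by
      rintro rfl
      exact hnx Z hZ hz
    obtain ⟨o, hTo, -, -⟩ := hother hzx
    have hox : o ≠ x := hTo.2.2.1.symm
    exact hN z o x Z U' W (tri23 (tri12 hTo))
      (dis12 (dis_mono dis1 (Finset.Subset.refl _) hZ (Finset.Subset.refl _))) hz (hzU' hox)
      (Or.inl hx)
  -- `V0` is nonempty
  have hne : ((S \ V).erase g').Nonempty := by
    by_contra hemp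
    rw [Finset.not_nonempty_iff_eq_empty] at hemp
    have hU1 : S \ V = {g'} := by
      apply Finset.eq_singleton_iff_unique_mem.2
      refine ⟨hg', fun y hy => ?_⟩
      by_contra hyg
      have : y ∈ (S \ V).erase g' := Finset.mem_erase.2 ⟨hyg, hy⟩
      rw [hemp] at this
      simp at this
    have hg'U' : g' ∈ U' := mem_of_win hVc hU' hw0
    have hU'1 : U' = {g'} := by
      apply Finset.eq_singleton_iff_unique_mem.2
      refine ⟨hg'U', fun y hy => ?_⟩
      by_contra hyg
      have h1 := hU'm y hy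
      apply win_not_cheap hUa
      rw [hU1]
      apply cheap_mono _ h1
      intro t ht
      rw [Finset.mem_singleton] at ht
      subst ht
      exact Finset.mem_erase.2 ⟨fun h => hyg h.symm, hg'U'⟩
    apply hV'c
    have : S \ U' = V := by
      rw [hU'1, ← hU1]
      exact Finset.sdiff_sdiff_eq_self hVS
    rw [this]
    exact hVc
  obtain ⟨g, hg⟩ := hne
  have mg : g ≠ g' ∧ g ∈ S ∧ g ∉ V := by simpa using hg
  have hgU : g ∈ S \ V := Finset.mem_sdiff.2 ⟨mg.2.1, mg.2.2⟩
  have hgU' : g ∉ U' := fun h => by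
    rcases mU' g h with h | h
    · exact mg.1 h
    · exact mg.2.2 h
  -- (N1)
  have hgW : ¬ cheap I u (insert g W) := by
    intro hc
    apply hG
    refine good_of_dem (A := V) (B := (S \ V).erase g) (C := insert g W) hT ?_ ?_ hxV
      (win_erase hUa hgU) (dem_up hbW.2 (Finset.subset_insert _ _) hc)
    · refine ⟨?_, ?_, ?_⟩
      · rw [Finset.disjoint_left]
        intro y hy hy'
        simp only [Finset.mem_erase, Finset.mem_sdiff] at hy'
        exact hy'.2.2 hy
      · rw [Finset.disjoint_left]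
        intro y hy hy'
        simp only [Finset.mem_erase, Finset.mem_sdiff, Finset.mem_insert] at hy hy'
        rcases hy' with h | h
        · exact hy.1 h
        · exact mSW y hy.2.1 h
      · rw [Finset.disjoint_left]
        intro y hy hy'
        simp only [Finset.mem_insert] at hy'
        rcases hy' with h | h
        · subst h; exact mg.2.2 hy
        · exact mSW y (mVS y hy) h
    · ext y
      simp only [Finset.mem_union, Finset.mem_erase, Finset.mem_sdiff, Finset.mem_insert,
        Finset.mem_univ, iff_true]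
      rcases mAll y with h | h
      · by_cases h1 : y ∈ V
        · exact Or.inl (Or.inl h1)
        · by_cases h2 : y = g
          · exact Or.inr (Or.inl h2)
          · exact Or.inl (Or.inr ⟨h2, h, h1⟩)
      · exact Or.inr (Or.inr h)
  obtain ⟨UW, hUW, r, hr⟩ := exists_win_sub hgW
  have mUW : ∀ y ∈ UW, y = g ∨ y ∈ W := fun y hy => by simpa using hUW hy
  have hrW : dem I u r W := dem_of_win haW.1 hUW hr
  have hrx : r ≠ x := by rintro rfl; exact hxW hrW
  have hxUW : ¬ win I u x UW := fun h => hxW (dem_of_win haW.1 hUW h)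
  -- all `z ≠ x` win `UW`
  have hzUW : ∀ {z : ι}, z ≠ x → win I u z UW := by
    intro z hz
    obtain ⟨o, hTo, -, -⟩ := hother hrx
    have hox : o ≠ x := hTo.2.2.1.symm
    have hdis : Dis3 UW ((S \ V).erase g) V := by
      refine ⟨?_, ?_, ?_⟩
      · rw [Finset.disjoint_left]
        intro y hy hy'
        simp only [Finset.mem_erase, Finset.mem_sdiff] at hy'
        rcases mUW y hy with h | h
        · exact hy'.1 h
        · exact mSW y hy'.2.1 h
      · rw [Finset.disjoint_left]
        intro y hy hy'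
        simp only [Finset.mem_erase, Finset.mem_sdiff] at hy
        exact hy.2.2 hy'
      · rw [Finset.disjoint_left]
        intro y hy hy'
        rcases mUW y hy with h | h
        · subst h; exact mg.2.2 hy'
        · exact mSW y (mVS y hy') h
    have := F1 hM (tri12 hTo) hdis hr (Or.inl (win_erase hxU hgU))
      (Or.inl (hdem (hzU' hox)))
    have hoUW : win I u o UW := this.resolve_left hxUW
    rcases hTo.2.2.2 z with rfl | rfl | rfl
    · exact absurd rfl hz
    · exact hr
    · exact hoUW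
  -- the bundle `X = V' \ {g}`
  have hgV' : g ∈ S \ U' := Finset.mem_sdiff.2 ⟨mg.2.1, hgU'⟩
  have hdisX : ∀ {X : Finset M}, X ⊆ (S \ U').erase g → Dis3 X U' UW := by
    intro X hX
    refine ⟨?_, ?_, ?_⟩
    · rw [Finset.disjoint_left]
      intro y hy hy'
      have := hX hy
      simp only [Finset.mem_erase, Finset.mem_sdiff] at this
      exact this.2.2 hy'
    · rw [Finset.disjoint_left]
      intro y hy hy'
      rcases mUW y hy' with h | h
      · subst h; exact hgU' hy
      · exact mSW y (mU'S y hy) h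
    · rw [Finset.disjoint_left]
      intro y hy hy'
      have := hX hy
      simp only [Finset.mem_erase, Finset.mem_sdiff] at this
      rcases mUW y hy' with h | h
      · exact this.1 h
      · exact mSW y this.2.1 h
  have hxV'1 : u x + 1 ≤ I.v x (S \ U') := by
    rcases hsplit (S \ U') U' Finset.sdiff_disjoint
        (Finset.sdiff_union_of_subset hU'S) with h | h
    · exact h
    · have := le_of_not_win hU'm hxU'
      omega
  have hxX : u x ≤ I.v x ((S \ U').erase g) := by
    have h1 := I.unit x ((S \ U').erase g) g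
    rw [Finset.insert_erase hgV'] at h1
    omega
  have hXc : ¬ cheap I u ((S \ U').erase g) := by
    intro hc
    exact hN a b x U' UW ((S \ U').erase g) (tri23 (tri12 hT))
      (by
        have := hdisX (Finset.Subset.refl ((S \ U').erase g))
        exact dis23 (dis12 this))
      haU' (hzUW hT.2.2.1.symm) (Or.inl ⟨hc, le_antisymm (hc x) hxX⟩)
  obtain ⟨Z, hZ, z, hz⟩ := exists_win_sub hXc
  have hzx : z ≠ x := by
    rintro rfl
    exact hnx Z (hZ.trans (Finset.erase_subset _ _)) hz
  have hxZ : ¬ win I u x Z := hnx Z (hZ.trans (Finset.erase_subset _ _))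
  have h1 : I.v x U' ≤ u x := le_of_not_win hU'm hxU'
  have hUWm : emin I u UW := hr.1
  have h2 : I.v x UW ≤ u x := le_of_not_win hUWm hxUW
  have h3 : I.v x Z ≤ u x := le_of_not_win hz.1 hxZ
  -- raised levels
  let u1 : ι → ℕ := fun k => if k = x then u k else u k + 1
  have hu1x : u1 x = u x := by simp [u1]
  have hu1 : ∀ {k : ι}, k ≠ x → u1 k = u k + 1 := fun hk => by simp [u1, hk]
  have hch1 : ∀ {A : Finset M}, emin I u A → I.v x A ≤ u x → cheap I u1 A := by
    intro A hA hxA k
    by_cases hk : k = x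
    · subst hk; rw [hu1x]; exact hxA
    · rw [hu1 hk]; exact emin_le hA k
  obtain ⟨o, hTo, -, -⟩ := hother hzx
  have hox : o ≠ x := hTo.2.2.1.symm
  have hdisZ := hdisX hZ
  by_cases hc1 : I.v x U' = u x
  · have := hM u1 x z o U' Z UW hTo
      ⟨dis12 hdisZ, Or.inl ⟨hch1 hU'm h1, by rw [hu1x]; exact hc1⟩,
        Or.inl ⟨hch1 hz.1 h3, by rw [hu1 hzx]; exact hz.2⟩,
        Or.inl ⟨hch1 hUWm h2, by rw [hu1 hox]; exact (hzUW hox).2⟩⟩
    rw [hu1x, hu1 hzx, hu1 hox] at this
    omega
  by_cases hc2 : I.v x UW = u x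
  · have := hM u1 x z o UW Z U' hTo
      ⟨dis12 (dis23 hdisZ), Or.inl ⟨hch1 hUWm h2, by rw [hu1x]; exact hc2⟩,
        Or.inl ⟨hch1 hz.1 h3, by rw [hu1 hzx]; exact hz.2⟩,
        Or.inl ⟨hch1 hU'm h1, by rw [hu1 hox]; exact (hzU' hox).2⟩⟩
    rw [hu1x, hu1 hzx, hu1 hox] at this
    omega
  -- the last case
  have hY1 : u x ≤ I.v x (((S \ V).erase g').erase g) + 1 := by
    have h1 := I.unit x (((S \ V).erase g').erase g) g
    rw [Finset.insert_erase hg, hxV0.2] at h1
    exact h1
  have hYsub : ((S \ V).erase g').erase g ⊆ (S \ U').erase g := Finset.erase_subset_erase _ hV0V'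
  have hYc : cheap I u (((S \ V).erase g').erase g) :=
    cheap_mono (Finset.erase_subset _ _) hxV0.1
  have hdisY := hdisX hYsub
  by_cases hc3 : I.v x (((S \ V).erase g').erase g) = u x
  · exact hN a b x U' UW _ (tri23 (tri12 hT)) (dis23 (dis12 hdisY))
      haU' (hzUW hT.2.2.1.symm) (Or.inl ⟨hYc, hc3⟩)
  have hc4 : I.v x (((S \ V).erase g').erase g) + 1 = u x := by
    have := hYc x
    omega
  let u2 : ι → ℕ := fun k => if k = x then u k - 1 else u k + 1
  have hu2x : u2 x = u x - 1 := by simp [u2]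
  have hu2 : ∀ {k : ι}, k ≠ x → u2 k = u k + 1 := fun hk => by simp [u2, hk]
  have hch2 : ∀ {A : Finset M}, emin I u A → I.v x A < u x → cheap I u2 A := by
    intro A hA hxA k
    by_cases hk : k = x
    · subst hk; rw [hu2x]; omega
    · rw [hu2 hk]; exact emin_le hA k
  have := hM u2 x a b _ U' UW hT
    ⟨hdisY, Or.inl ⟨fun k => by
        by_cases hk : k = x
        · subst hk; rw [hu2x]; omega
        · rw [hu2 hk]; exact (hYc k).trans (Nat.le_succ _), by rw [hu2x]; omega⟩,
      Or.inl ⟨hch2 hU'm (by omega), by rw [hu2 hT.1.symm]; exact haU'.2⟩,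
      Or.inl ⟨hch2 hUWm (by omega), by
        rw [hu2 hT.2.2.1.symm]; exact (hzUW hT.2.2.1.symm).2⟩⟩
  rw [hu2x, hu2 hT.1.symm, hu2 hT.2.2.1.symm] at this
  omega

theorem ml_thm (hPL : S_PL) : S_ML := by
  intro M ι _ _ I u x a b V U W P P' hT hM hN hG hD huniv hxV haU hbW haW hPP hPU hP hP'
  obtain ⟨dVU, dUW, dVW⟩ := hD
  have hSW : (V ∪ U) ∪ W = univ := huniv
  have hdSW : Disjoint (V ∪ U) W := Finset.disjoint_union_left.2 ⟨dVW, dUW⟩
  have hsplit : ∀ A B : Finset M, Disjoint A B → A ∪ B = V ∪ U →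
      u x + 1 ≤ I.v x A ∨ u x + 1 ≤ I.v x B := by
    intro A B hAB hABU
    have := I.feas x P P' A B hPP hAB (hPU.trans hABU.symm)
    have h1 : u x + 1 ≤ max (I.v x A) (I.v x B) := (le_min hP hP').trans this
    rcases le_max_iff.1 h1 with h | h
    · exact Or.inl h
    · exact Or.inr h
  refine hPL M (V ∪ U) P P' (fun A => cheap I u A) (fun A => u x + 1 ≤ I.v x A)
    (fun V' => V' ⊆ V ∪ U ∧ cheap I u V' ∧ I.v x V' = u x ∧
      (win I u a ((V ∪ U) \ V') ∨ win I u b ((V ∪ U) \ V')))
    (fun A B h h' => cheap_mono h h') (fun A B h h' => h'.trans (I.mono x A B h))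
    (fun A h h' => absurd (h' x) (by omega)) hsplit hPP hPU hP hP' ?_ ?_ V ?_
  · rintro V' ⟨h1, h2, h3, h4⟩
    refine ⟨h1, h2, ?_⟩
    rcases h4 with h4 | h4
    · exact h4.1
    · exact h4.1
  · rintro V' ⟨h1, h2, h3, h4⟩ g' hg' U' hU' hU'c hU'm
    have hU'S : U' ⊆ V ∪ U := by
      intro y hy
      have := hU' hy
      rw [Finset.mem_insert] at this
      rcases this with rfl | h
      · exact (Finset.mem_sdiff.1 hg').1
      · exact h1 h
    simp only [Finset.sdiff_sdiff_eq_self hU'S]
    refine ⟨Finset.sdiff_subset, ?_⟩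
    rcases h4 with h4 | h4
    · exact ml_close hT hM hN hG hSW hdSW hsplit h1 h2 h3 h4 haW hbW hg' hU' hU'c hU'm
    · have := ml_close (tri23 hT) hM hN hG hSW hdSW hsplit h1 h2 h3 h4 hbW haW hg' hU' hU'c hU'm
      exact ⟨this.1, this.2.1, this.2.2.symm⟩
  · have : (V ∪ U) \ V = U := by
      rw [Finset.union_sdiff_left]
      exact Finset.sdiff_eq_self_of_disjoint dVU.symm
    exact ⟨Finset.subset_union_left, hxV.1, hxV.2, Or.inl (by rw [this]; exact haU)⟩

end Pool.Agent.Helper35.P3
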